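import Mathlib
import Pool.Agent.ADG.All7

set_option autoImplicit false

/-!
# Almost all orders of affine difference sets in finite groups are `p` or `p + 1`

Affine difference sets in arbitrary finite groups, relative to arbitrary subgroups. All but `o (x / log x)`
of their orders `n ≤ x` are primes, or divisible by `4` and of the form `p + 1` with a prime `p`. (If `4 ∣ n` we
assume that the group is solvable. Its order `n ^ 2 - 1` is odd, so this is automatic by the theorem of Feit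
and Thompson.) The number of the orders `n ≤ x` lies between two positive constants times `x / log x`; all
primes are orders (Bose).
-/

namespace Pool.Agent.Results.MP_43d07b_co.AlmostAllOrdersAllGroups

/-- `D` is an affine difference set of order `n` in the group `G` relative to the subgroup `N`. -/
structure IsAffineDifferenceSet {G : Type*} [Group G] (n : ℕ) (N : Subgroup G)
    (D : Finset G) : Prop where
  two_le : 2 ≤ n
  card_group : Nat.card G = n ^ 2 - 1
  card_subgroup : Nat.card N = n - 1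
  card_set : D.card = n
  existsUnique_of_notMem : ∀ g : G, g ∉ N →
    ∃! d : G × G, d.1 ∈ D ∧ d.2 ∈ D ∧ d.1 * d.2⁻¹ = g
  ne_of_mem : ∀ g : G, g ∈ N → g ≠ 1 → ∀ d₁ ∈ D, ∀ d₂ ∈ D, d₁ * d₂⁻¹ ≠ g

/-- Some group contains an affine difference set of order `n`, relative to some subgroup. (The group has
`n ^ 2 - 1 ≠ 0` elements, so it is finite.) -/
def IsOrder (n : ℕ) : Prop :=
  ∃ (G : Type) (_ : Group G) (N : Subgroup G) (D : Finset G), IsAffineDifferenceSet n N D

/-- The same, with a solvable group if `4 ∣ n` (its order `n ^ 2 - 1` is then odd). -/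
def IsOrder4 (n : ℕ) : Prop :=
  ∃ (G : Type) (_ : Group G) (N : Subgroup G) (D : Finset G), IsAffineDifferenceSet n N D ∧
    (4 ∣ n → Group.IsSolvable G)

theorem to_ads {G : Type*} [Group G] {n : ℕ} {N : Subgroup G} {D : Finset G}
    (h : IsAffineDifferenceSet n N D) : Pool.Agent.ADS.IsAffineDifferenceSet n N D :=
  ⟨h.two_le, h.card_group, h.card_subgroup, h.card_set, h.existsUnique_of_notMem, h.ne_of_mem⟩

theorem of_ads {G : Type*} [Group G] {n : ℕ} {N : Subgroup G} {D : Finset G}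
    (h : Pool.Agent.ADS.IsAffineDifferenceSet n N D) : IsAffineDifferenceSet n N D :=
  ⟨h.two_le, h.card_group, h.card_subgroup, h.card_set, h.existsUnique_of_notMem, h.ne_of_mem⟩

theorem order_iff (n : ℕ) : IsOrder n ↔ Pool.Agent.ADG.AnyOrder n := by
  constructor
  · rintro ⟨G, i1, N, D, h⟩
    exact ⟨G, i1, N, D, to_ads h⟩
  · rintro ⟨G, i1, N, D, h⟩
    exact ⟨G, i1, N, D, of_ads h⟩

theorem order4_iff (n : ℕ) : IsOrder4 n ↔ Pool.Agent.ADG.Order7 n := by
  constructor
  · rintro ⟨G, i1, N, D, h, h'⟩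
    exact ⟨G, i1, N, D, to_ads h, h'⟩
  · rintro ⟨G, i1, N, D, h, h'⟩
    exact ⟨G, i1, N, D, of_ads h, h'⟩

theorem result :
    (∀ ε : ℝ, 0 < ε → ∃ x₀ : ℝ, ∀ x : ℝ, x₀ ≤ x →
      ({n : ℕ | (n : ℝ) ≤ x ∧ IsOrder4 n ∧ ¬ n.Prime ∧ ¬ (4 ∣ n ∧ (n - 1).Prime)}.ncard : ℝ) ≤
        ε * x / Real.log x) ∧
    ∃ c C : ℝ, 0 < c ∧ ∀ x : ℝ, 2 ≤ x →
      c * x / Real.log x ≤ ({n : ℕ | (n : ℝ) ≤ x ∧ IsOrder n}.ncard : ℝ) ∧
      ({n : ℕ | (n : ℝ) ≤ x ∧ IsOrder n}.ncard : ℝ) ≤ C * x / Real.log x := by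
  simp only [order_iff, order4_iff]
  exact ⟨Pool.Agent.ADG.main7, Pool.Agent.ADG.main4.2⟩

end Pool.Agent.Results.MP_43d07b_co.AlmostAllOrdersAllGroups
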