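import Mathlib
import Pool.Agent.ADS.BOSE
import Pool.Agent.ADS.MULT2
import Pool.Agent.ADS.KEY2
import Pool.Agent.ADS.CASES2
import Pool.Agent.ADS.E0E2g
import Pool.Agent.ADS.E1
import Pool.Agent.ADS.E3
import Pool.Agent.ADS.E4E6a
import Pool.Agent.ADS.E5a
import Pool.Agent.ADS.E5b
import Pool.Agent.ADS.E6b
import Pool.Agent.ADS.E7
import Pool.Agent.ADS.NILSQF
import Pool.Agent.ADS.FINAL3

set_option autoImplicit false

/-!
# Orders of affine difference sets are almost always prime

Let `G` be a finite group that is nilpotent or has a commutator subgroup of order at most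
`exp (√(log n))` (for instance any abelian group), and let `G` contain an affine difference set of
order `n` relative to some subgroup. All but `O (x / (log x) ^ 2)` of the orders `n ≤ x` that occur
in this way are prime. All primes do occur (Bose), already for cyclic groups.
-/

namespace Pool.Agent.Results.MP_43d07b_co.AlmostAllOrdersPrime

/-- `D` is an affine difference set of order `n` in the group `G` relative to the subgroup `N`. -/
structure IsAffineDifferenceSet {G : Type*} [Group G] (n : ℕ) (N : Subgroup G)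
    (D : Finset G) : Prop where
  two_le : 2 ≤ n
  card_group : Nat.card G = n ^ 2 - 1
  card_subgroup : Nat.card N = n - 1
  card_set : D.card = n
  existsUnique_of_notMem : ∀ g : G, g ∉ N →
    ∃! d : G × G, d.1 ∈ D ∧ d.2 ∈ D ∧ d.1 * d.2⁻¹ = g
  ne_of_mem : ∀ g : G, g ∈ N → g ≠ 1 → ∀ d₁ ∈ D, ∀ d₂ ∈ D, d₁ * d₂⁻¹ ≠ g

/-- Some finite cyclic group contains an affine difference set of order `n`. -/
def CyclicOrder (n : ℕ) : Prop :=
  ∃ (G : Type) (_ : CommGroup G) (_ : IsCyclic G) (N : Subgroup G) (D : Finset G),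
    IsAffineDifferenceSet n N D

/-- Some finite group that is nilpotent or whose commutator subgroup has order at most
`exp (√(log n))` contains an affine difference set of order `n`, relative to some subgroup. -/
def NearAbelianOrder (n : ℕ) : Prop :=
  ∃ (G : Type) (_ : Group G) (N : Subgroup G) (D : Finset G), IsAffineDifferenceSet n N D ∧
    (Group.IsNilpotent G ∨
      (Nat.card (commutator G) : ℝ) ≤ Real.exp (Real.sqrt (Real.log n)))

theorem to_ads {G : Type*} [Group G] {n : ℕ} {N : Subgroup G} {D : Finset G}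
    (h : IsAffineDifferenceSet n N D) : Pool.Agent.ADS.IsAffineDifferenceSet n N D :=
  ⟨h.two_le, h.card_group, h.card_subgroup, h.card_set, h.existsUnique_of_notMem, h.ne_of_mem⟩

theorem of_ads {G : Type*} [Group G] {n : ℕ} {N : Subgroup G} {D : Finset G}
    (h : Pool.Agent.ADS.IsAffineDifferenceSet n N D) : IsAffineDifferenceSet n N D :=
  ⟨h.two_le, h.card_group, h.card_subgroup, h.card_set, h.existsUnique_of_notMem, h.ne_of_mem⟩

theorem near_imp {n : ℕ} : NearAbelianOrder n → Pool.Agent.ADS.NearOrder3 n := by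
  rintro ⟨G, i1, N, D, h, h2⟩
  exact ⟨G, i1, N, D, to_ads h, h2⟩

theorem result : (∀ p : ℕ, p.Prime → CyclicOrder p) ∧
    ∃ C : ℝ, ∀ x : ℝ, 2 ≤ x →
      ({n : ℕ | (n : ℝ) ≤ x ∧ ¬ n.Prime ∧ NearAbelianOrder n}.ncard : ℝ) ≤
        C * x / Real.log x ^ 2 := by
  classical
  refine ⟨fun p hp => ?_, ?_⟩
  · obtain ⟨G, i1, i2, N, D, h⟩ := Pool.Agent.ADS.BOSE_thm p hp
    exact ⟨G, i1, i2, N, D, of_ads h⟩
  · have hS : Pool.Agent.ADS.Small Pool.Agent.ADS.S2 := by
      refine Pool.Agent.ADS.FinalTwo.small_mono ?_ Pool.Agent.ADS.CASES2_thm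
      exact Pool.Agent.ADS.FinalTwo.small_union (Pool.Agent.ADS.FinalTwo.small_union
        (Pool.Agent.ADS.FinalTwo.small_union (Pool.Agent.ADS.FinalTwo.small_union
        (Pool.Agent.ADS.FinalTwo.small_union (Pool.Agent.ADS.FinalTwo.small_union
        (Pool.Agent.ADS.FinalTwo.small_union (Pool.Agent.ADS.FinalTwo.small_union
        Pool.Agent.ADS.E0_thm Pool.Agent.ADS.E1_thm) Pool.Agent.ADS.E2g_thm)
        Pool.Agent.ADS.E3_thm) Pool.Agent.ADS.E4_thm) Pool.Agent.ADS.E5a_thm)
        Pool.Agent.ADS.E5b_thm) Pool.Agent.ADS.E6a_thm) Pool.Agent.ADS.E6b_thm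
    have hT : Pool.Agent.ADS.Small Pool.Agent.ADS.FinalThree.T3 :=
      Pool.Agent.ADS.FinalTwo.small_mono
        (Pool.Agent.ADS.FinalTwo.small_union hS Pool.Agent.ADS.E7_thm)
        (Pool.Agent.ADS.FinalThree.sub (Pool.Agent.ADS.KEY2_thm Pool.Agent.ADS.MULT2_thm)
          Pool.Agent.ADS.NIL_thm Pool.Agent.ADS.SQF_thm)
    obtain ⟨C, hC⟩ := Pool.Agent.ADS.FinalTwo.small_real hT (fun X => Finset.filter_subset _ _)
    refine ⟨C, fun x hx => le_trans ?_ (hC x hx)⟩
    have h2 : {n : ℕ | (n : ℝ) ≤ x ∧ ¬ n.Prime ∧ NearAbelianOrder n}.ncard ≤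
        (Pool.Agent.ADS.FinalThree.T3 ⌊x⌋₊).card := by
      rw [← Set.ncard_coe_finset]
      refine Set.ncard_le_ncard ?_ (Finset.finite_toSet _)
      rintro n ⟨hnx, hp, hn⟩
      have h3 : n ≤ ⌊x⌋₊ := Nat.le_floor hnx
      rw [Finset.mem_coe]
      unfold Pool.Agent.ADS.FinalThree.T3
      rw [Finset.mem_filter, Finset.mem_Icc]
      refine ⟨⟨?_, h3⟩, hp, near_imp hn⟩
      obtain ⟨G, iG, N, D, hD, _⟩ := hn
      exact hD.two_le
    exact_mod_cast h2

end Pool.Agent.Results.MP_43d07b_co.AlmostAllOrdersPrime
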