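import Mathlib
import Pool.Agent.Lib_helper97.AffDiff.Core

/-!
# Affine difference sets of order `n = 2 mod 4` relative to a normal subgroup

If a finite group `G`, abelian or not, contains an affine difference set of order `n > 2`
relative to a normal subgroup `N` which is not perfect, then `n` is not `2` modulo `4`.
(For even `n` the group `N` has odd order, so by the theorem of Feit and Thompson it is never
perfect when `n > 2`.)
-/

namespace Pool.Agent.Results.MP_43d07b_co.NormalTwoModFour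

/-- `D` is an affine difference set of order `n` in the group `G` relative to the subgroup `N`. -/
structure IsAffineDifferenceSet {G : Type*} [Group G] (n : ℕ) (N : Subgroup G)
    (D : Finset G) : Prop where
  two_le : 2 ≤ n
  card_group : Nat.card G = n ^ 2 - 1
  card_subgroup : Nat.card N = n - 1
  card_set : D.card = n
  existsUnique_of_notMem : ∀ g : G, g ∉ N →
    ∃! d : G × G, d.1 ∈ D ∧ d.2 ∈ D ∧ d.1 * d.2⁻¹ = g
  ne_of_mem : ∀ g : G, g ∈ N → g ≠ 1 → ∀ d₁ ∈ D, ∀ d₂ ∈ D, d₁ * d₂⁻¹ ≠ g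

theorem result {G : Type*} [Group G] [Finite G] (N : Subgroup G) [N.Normal]
    (hN : commutator N ≠ ⊤) (n : ℕ) (D : Finset G) (hD : IsAffineDifferenceSet n N D) :
    n % 4 ≠ 2 := by
  classical
  intro hmod
  have h2 := hD.two_le
  have : Fintype G := Fintype.ofFinite G
  have : Fintype N := Fintype.ofFinite N
  have : Fintype (G ⧸ N) := Fintype.ofFinite _
  -- the number of cosets
  have hcardQ : Fintype.card (G ⧸ N) = n + 1 := by
    have h1 := Subgroup.card_eq_card_quotient_mul_card_subgroup N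
    rw [hD.card_group, hD.card_subgroup, Nat.card_eq_fintype_card] at h1
    obtain ⟨a, rfl⟩ : ∃ a, n = a + 2 := ⟨n - 2, by omega⟩
    have h3 : (a + 2) ^ 2 - 1 = (a + 3) * (a + 1) := by
      have : (a + 2) ^ 2 = (a + 3) * (a + 1) + 1 := by ring
      omega
    rw [h3] at h1
    have h4 : a + 2 - 1 = a + 1 := rfl
    rw [h4] at h1
    exact (Nat.eq_of_mul_eq_mul_right (Nat.succ_pos a) h1).symm
  let p : G →* G ⧸ N := QuotientGroup.mk' N
  have hp1 : ∀ g, p g = 1 ↔ g ∈ N := fun g => QuotientGroup.eq_one_iff g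
  have hinj : ∀ d₁ ∈ D, ∀ d₂ ∈ D, p d₁ = p d₂ → d₁ = d₂ := by
    intro d₁ h₁ d₂ h₂ h
    by_contra hne
    have hmem : d₁ * d₂⁻¹ ∈ N := by
      rw [← hp1, map_mul, map_inv, h, mul_inv_cancel]
    exact hD.ne_of_mem _ hmem (fun h' => hne (mul_inv_eq_one.mp h')) d₁ h₁ d₂ h₂ rfl
  -- the missed coset
  obtain ⟨c, hc⟩ : ∃ c : G ⧸ N, (Finset.univ \ D.image p) = {c} := by
    rw [← Finset.card_eq_one, Finset.card_sdiff_of_subset (Finset.subset_univ _),
      Finset.card_image_of_injOn (fun a ha b hb h => hinj a ha b hb h), Finset.card_univ,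
      hcardQ, hD.card_set]
    omega
  have hcne : ∀ d ∈ D, p d ≠ c := by
    intro d hd h
    have : c ∈ (Finset.univ \ D.image p) := by rw [hc]; simp
    rw [Finset.mem_sdiff] at this
    exact this.2 (Finset.mem_image.mpr ⟨d, hd, h⟩)
  have hex : ∀ q : G ⧸ N, ∃ d, q ≠ c → d ∈ D ∧ p d = q := by
    intro q
    by_cases hq : q = c
    · exact ⟨1, fun h => absurd hq h⟩
    · have h3 : q ∉ (Finset.univ \ D.image p) := by rw [hc]; simpa using hq
      rw [Finset.mem_sdiff, not_and, not_not] at h3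
      obtain ⟨d, hd, hdq⟩ := Finset.mem_image.mp (h3 (Finset.mem_univ _))
      exact ⟨d, fun _ => ⟨hd, hdq⟩⟩
  choose δ hδ using hex
  obtain ⟨s, hs⟩ : ∃ s : G ⧸ N → G, ∀ q, p (s q) = q :=
    ⟨Function.surjInv (QuotientGroup.mk'_surjective N), Function.surjInv_eq _⟩
  have hne : ∀ i j : G ⧸ N, i ≠ j → i * j⁻¹ * c ≠ c := by
    intro i j hij h
    exact hij (mul_inv_eq_one.mp (mul_eq_right.mp h))
  have hmem : ∀ i j : G ⧸ N, i ≠ j →
      (s i)⁻¹ * δ (i * j⁻¹ * c) * s (c⁻¹ * j) ∈ N := by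
    intro i j hij
    rw [← hp1, map_mul, map_mul, map_inv, hs, hs, (hδ _ (hne i j hij)).2]
    group
  let m : G ⧸ N → G ⧸ N → N := fun i j =>
    if h : i ≠ j then ⟨(s i)⁻¹ * δ (i * j⁻¹ * c) * s (c⁻¹ * j), hmem i j h⟩ else 1
  have hmval : ∀ i j : G ⧸ N, i ≠ j →
      ((m i j : N) : G) = (s i)⁻¹ * δ (i * j⁻¹ * c) * s (c⁻¹ * j) := by
    intro i j hij
    simp only [m, dif_pos hij]
  have hm : ∀ i i', i ≠ i' → ∀ h : N, ∃! j, (j ≠ i ∧ j ≠ i') ∧ m i j * (m i' j)⁻¹ = h := by
    intro i i' hii h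
    have hg : s i * h * (s i')⁻¹ ∉ N := by
      rw [← hp1, map_mul, map_mul, map_inv, hs, hs, (hp1 _).mpr h.2, mul_one]
      exact fun h' => hii (mul_inv_eq_one.mp h')
    obtain ⟨⟨d₁, d₂⟩, ⟨h₁, h₂, h₁₂⟩, huniq⟩ := hD.existsUnique_of_notMem _ hg
    simp only at h₁ h₂ h₁₂
    have hp12 : p d₁ = i * i'⁻¹ * p d₂ := by
      have h3 : d₁ = s i * h * (s i')⁻¹ * d₂ := by rw [← h₁₂]; group
      rw [h3, map_mul, map_mul, map_mul, map_inv, hs, hs, (hp1 _).mpr h.2, mul_one]
    have key : ∀ j, j ≠ i → j ≠ i' →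
        ((m i j * (m i' j)⁻¹ : N) : G) =
          (s i)⁻¹ * (δ (i * j⁻¹ * c) * (δ (i' * j⁻¹ * c))⁻¹) * s i' := by
      intro j hj hj'
      rw [Subgroup.coe_mul, Subgroup.coe_inv, hmval i j hj.symm, hmval i' j hj'.symm]
      group
    refine ⟨c * (p d₂)⁻¹ * i', ⟨⟨?_, ?_⟩, ?_⟩, ?_⟩
    · intro hji
      apply hcne d₁ h₁
      rw [hp12]
      have h3 : p d₂ = i' * i⁻¹ * c := by rw [← hji]; group
      rw [h3]; group
    · intro hji
      apply hcne d₂ h₂
      have h3 : c * (p d₂)⁻¹ = 1 := mul_eq_right.mp hji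
      exact (mul_inv_eq_one.mp h3).symm
    · have hj1 : c * (p d₂)⁻¹ * i' ≠ i := by
        intro hji
        apply hcne d₁ h₁
        rw [hp12]
        have h3 : p d₂ = i' * i⁻¹ * c := by rw [← hji]; group
        rw [h3]; group
      have hj2 : c * (p d₂)⁻¹ * i' ≠ i' := by
        intro hji
        apply hcne d₂ h₂
        have h3 : c * (p d₂)⁻¹ = 1 := mul_eq_right.mp hji
        exact (mul_inv_eq_one.mp h3).symm
      apply Subtype.ext
      rw [key _ hj1 hj2]
      have e1 : i * (c * (p d₂)⁻¹ * i')⁻¹ * c = p d₁ := by rw [hp12]; group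
      have e2 : i' * (c * (p d₂)⁻¹ * i')⁻¹ * c = p d₂ := by group
      rw [e1, e2]
      have e3 : δ (p d₁) = d₁ :=
        hinj _ (hδ _ (hcne d₁ h₁)).1 _ h₁ (hδ _ (hcne d₁ h₁)).2
      have e4 : δ (p d₂) = d₂ :=
        hinj _ (hδ _ (hcne d₂ h₂)).1 _ h₂ (hδ _ (hcne d₂ h₂)).2
      rw [e3, e4, h₁₂]
      group
    · rintro j ⟨⟨hj, hj'⟩, hjh⟩
      have h3 := key j hj hj'
      rw [hjh] at h3
      have h4 : δ (i * j⁻¹ * c) * (δ (i' * j⁻¹ * c))⁻¹ = s i * h * (s i')⁻¹ := by
        rw [h3]; group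
      have h5 := huniq (δ (i * j⁻¹ * c), δ (i' * j⁻¹ * c))
        ⟨(hδ _ (hne i j hj.symm)).1, (hδ _ (hne i' j hj'.symm)).1, h4⟩
      have h6 : δ (i' * j⁻¹ * c) = d₂ := congrArg Prod.snd h5
      have h7 : p d₂ = i' * j⁻¹ * c := by rw [← h6]; exact (hδ _ (hne i' j hj'.symm)).2
      rw [h7]; group
  -- a nontrivial character of `N` with values in characteristic two
  obtain ⟨x, hx⟩ : ∃ x : N, x ∉ commutator N := by
    by_contra hcon
    push Not at hcon
    exact hN (Subgroup.ext fun x => ⟨fun _ => Subgroup.mem_top x, fun _ => hcon x⟩)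
  have hax : Abelianization.of x ≠ 1 := by
    intro h
    apply hx
    exact (QuotientGroup.eq_one_iff x).mp h
  have : Finite (Abelianization N) := Finite.of_surjective _ (QuotientGroup.mk'_surjective _)
  have : NeZero ((Monoid.exponent (Abelianization N) : ℕ) : AlgebraicClosure (ZMod 2)) := by
    constructor
    intro h0
    rw [CharP.cast_eq_zero_iff (AlgebraicClosure (ZMod 2)) 2] at h0
    have h3 : 2 ∣ Nat.card (Abelianization N) := h0.trans Group.exponent_dvd_nat_card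
    have h4 : Nat.card (Abelianization N) ∣ Nat.card N := Subgroup.card_quotient_dvd_card _
    have h5 := h3.trans h4
    rw [hD.card_subgroup] at h5
    omega
  obtain ⟨ψ, hψ⟩ := CommGroup.exists_apply_ne_one_of_hasEnoughRootsOfUnity
    (Abelianization N) (AlgebraicClosure (ZMod 2)) hax
  exact Pool.Agent.LibH97.AffDiff.core (k := AlgebraicClosure (ZMod 2))
    (ψ.comp Abelianization.of) (fun h => hψ (by
      have := DFunLike.congr_fun h x
      simpa using this)) m hm n hcardQ hmod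

end Pool.Agent.Results.MP_43d07b_co.NormalTwoModFour
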