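import Mathlib
import Pool.Agent.ADG.All6
import Pool.Agent.ADG.EVG

set_option autoImplicit false

/-!
# Arithmetic conditions for affine difference sets in arbitrary finite groups

Let `D` be an affine difference set of order `n` in a finite group `G` (abelian or not) relative to any
subgroup `N`, and let `l` be a prime which divides `n` to an odd power. If `l` is odd and the odd prime `p`
divides `n - 1` exactly once, then `l` is a square modulo `p`, and `4` times the `2`-part of `n ^ 2 - 1` does not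
divide the order of `l` modulo `p`. If `n` is even, `l` has odd order modulo every prime `p` dividing `n - 1`
(if `p ^ 3 ∣ n - 1` we assume that `G` is solvable, which is automatic by the theorem of Feit and Thompson).
If `n = 3 mod 8` then `l = 1, 3 mod 8`, and if `n = 7 mod 8` then `l = 1, 7 mod 8`.
-/

namespace Pool.Agent.Results.MP_43d07b_co.SquareConditions

/-- `D` is an affine difference set of order `n` in the group `G` relative to the subgroup `N`. -/
structure IsAffineDifferenceSet {G : Type*} [Group G] (n : ℕ) (N : Subgroup G)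
    (D : Finset G) : Prop where
  two_le : 2 ≤ n
  card_group : Nat.card G = n ^ 2 - 1
  card_subgroup : Nat.card N = n - 1
  card_set : D.card = n
  existsUnique_of_notMem : ∀ g : G, g ∉ N →
    ∃! d : G × G, d.1 ∈ D ∧ d.2 ∈ D ∧ d.1 * d.2⁻¹ = g
  ne_of_mem : ∀ g : G, g ∈ N → g ≠ 1 → ∀ d₁ ∈ D, ∀ d₂ ∈ D, d₁ * d₂⁻¹ ≠ g

theorem to_ads {G : Type*} [Group G] {n : ℕ} {N : Subgroup G} {D : Finset G}
    (h : IsAffineDifferenceSet n N D) : Pool.Agent.ADS.IsAffineDifferenceSet n N D :=
  ⟨h.two_le, h.card_group, h.card_subgroup, h.card_set, h.existsUnique_of_notMem, h.ne_of_mem⟩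

theorem result (G : Type) [Group G] (n : ℕ) (N : Subgroup G) (D : Finset G)
    (hD : IsAffineDifferenceSet n N D) (l : ℕ) (hl : l.Prime) (hodd : Odd (n.factorization l)) :
    (l ≠ 2 → ∀ p : ℕ, p.Prime → p ≠ 2 → (n - 1).factorization p = 1 →
      IsSquare (l : ZMod p) ∧
        ¬ 2 ^ ((n ^ 2 - 1).factorization 2 + 2) ∣ orderOf (l : ZMod p)) ∧
    (Even n → ∀ p : ℕ, p.Prime → p ∣ n - 1 → (¬ p ^ 3 ∣ n - 1 ∨ Group.IsSolvable G) →
      Odd (orderOf (l : ZMod p))) ∧
    (n % 8 = 3 → l % 8 = 1 ∨ l % 8 = 3) ∧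
    (n % 8 = 7 → l % 8 = 1 ∨ l % 8 = 7) := by
  have h : Pool.Agent.ADG.AnyOrder n := ⟨G, inferInstance, N, D, to_ads hD⟩
  have hfin : Finite G := Pool.Agent.ADG.FIN4.fin_of (to_ads hD)
  refine ⟨fun hl2 p hp hp2 hpn => ⟨?_, ?_⟩, fun hev p hp hpn hS => ?_, ?_⟩
  · exact Pool.Agent.ADG.main4.1 n h l p hl hp hl2 hp2 hodd hpn
  · exact Pool.Agent.ADG.CTW_all G n N D (to_ads hD) p hp hp2 hpn l hl hl2 hodd
  · exact Pool.Agent.ADG.EVG_thm G N n D (to_ads hD) hev l p hl hp hodd hpn hS
  · have h1 := Pool.Agent.ADG.main1.1 n h l hl hodd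
    exact ⟨h1.2.1, h1.2.2.1⟩

end Pool.Agent.Results.MP_43d07b_co.SquareConditions
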